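import Pool.Agent.RHO.Stmts3

/-!
# MP_ca8ef3_an, stage 2: row KEX, exact values of the kernel
-/

set_option autoImplicit false

namespace Pool.Agent.RHO.H9c

open Finset

theorem kex (qdf : QDFStmt) (pvb : PVBStmt) (pve : PVEStmt) : KEXStmt := by
  intro ι _ _ D m k k1 Z hk hZ
  have h2 : ∀ x : ZMod 2, x + x = 0 := by decide
  have h2f : ∀ f g : Fn ι, f - g = g + f := by
    intro f g
    funext z
    have h3 : ∀ x y : ZMod 2, x - y = y + x := by decide
    exact h3 _ _
  have hi : ∀ i : Fin D, pv m k k1 (rp (chn (k1 + k * m) Z i)) =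
      (1 - 1 / 2 ^ m) ^ (Z.filter fun e => e.2 = i).card := by
    intro i
    have hinj : Set.InjOn (Prod.fst : Pt ι × Fin D → Pt ι)
        ((Z.filter fun e => e.2 = i : Finset (Pt ι × Fin D)) : Set (Pt ι × Fin D)) := by
      intro a ha b hb hab
      rw [Finset.mem_coe, Finset.mem_filter] at ha hb
      exact Prod.ext hab (ha.2.trans hb.2.symm)
    set Zi : Finset (Pt ι) := (Z.filter fun e => e.2 = i).image Prod.fst with hZi
    have hcard : Zi.card = (Z.filter fun e => e.2 = i).card := Finset.card_image_of_injOn hinj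
    have hle : Zi.card ≤ Z.card := by
      rw [hcard]
      exact Finset.card_filter_le _ _
    have hc : chn (k1 + k * m) Z i = ∑ p ∈ Zi, ev (k1 + k * m) p := by
      rw [hZi, Finset.sum_image hinj]
      rfl
    have hv0 : Van (ind Zi + ind Zi) (k1 + k * m) := by
      intro f _
      have h3 : ind Zi + ind Zi = 0 := by
        funext z
        exact h2 _
      rw [h3]
      simp [pr]
    have hmk := (qdf ι (k1 + k * m)).2.2.1 (ind Zi) Zi hv0
    have hT : (Submodule.Quotient.mk (ind Zi) : Qd ι (k1 + k * m)) = chn (k1 + k * m) Z i := by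
      rw [hmk, hc]
    have hrp : (Submodule.Quotient.mk (rp (chn (k1 + k * m) Z i)) : Qd ι (k1 + k * m)) =
        chn (k1 + k * m) Z i := Quotient.out_eq _
    have hvan : Van (ind Zi + rp (chn (k1 + k * m) Z i)) (k1 + k * m) := by
      have h3 : rp (chn (k1 + k * m) Z i) - ind Zi ∈ Vs ι (k1 + k * m) := by
        rw [← Submodule.Quotient.eq, hrp, hT]
      rw [h2f] at h3
      exact h3
    rw [(pvb ι m k k1 (ind Zi)).2.2.1 _ hvan, pve ι m k k1 Zi hk (hle.trans_lt hZ), hcard]
  unfold KT
  rw [Finset.prod_congr rfl fun i _ => hi i, Finset.prod_pow_eq_pow_sum,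
    ← Finset.card_eq_sum_card_fiberwise (f := Prod.snd) (t := Finset.univ)
      (fun _ _ => Finset.mem_coe.2 (Finset.mem_univ _))]

end Pool.Agent.RHO.H9c
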