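import Pool.Agent.RHO.Stmts3

/-!
# MP_ca8ef3_an, stage 2: row KIN, the inverse theorem for the kernel
-/

set_option autoImplicit false

namespace Pool.Agent.RHO.H9c

open Finset

theorem kin (inv : INVStmt) (qdf : QDFStmt) (pvb : PVBStmt) (pve : PVEStmt) : KINStmt := by
  intro ι _ _ D m k t h T hm hh ht hnum hK
  have hr0 : (0 : ℝ) < 1 - 1 / 2 ^ m := by
    have h1 : (1 : ℝ) < 2 ^ m := one_lt_pow₀ one_lt_two (by omega)
    have h2 : (1 : ℝ) / 2 ^ m < 1 := by
      rw [div_lt_one (by positivity)]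
      exact h1
    linarith
  have hr1 : (1 - 1 / 2 ^ m : ℝ) < 1 := by
    have h2 : (0 : ℝ) < 1 / 2 ^ m := by positivity
    linarith
  set r : ℝ := 1 - 1 / 2 ^ m with hr
  have hpv : ∀ i : Fin D, r ^ t ≤ pv m k (4 * k) (rp (T i)) := by
    intro i
    refine hK.trans ?_
    unfold KT
    rw [← Finset.mul_prod_erase Finset.univ _ (Finset.mem_univ i)]
    have h1 : ∏ j ∈ Finset.univ.erase i, pv m k (4 * k) (rp (T j)) ≤ 1 :=
      Finset.prod_le_one (fun j _ => (pvb ι m k (4 * k) _).1) (fun j _ => (pvb ι m k (4 * k) _).2.1)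
    have h2 := (pvb ι m k (4 * k) (rp (T i))).1
    calc _ ≤ pv m k (4 * k) (rp (T i)) * 1 := mul_le_mul_of_nonneg_left h1 h2
      _ = _ := mul_one _
  have hZ : ∀ i : Fin D, ∃ Zi : Finset (Pt ι), Zi.card ≤ t ∧ Van (rp (T i) + ind Zi) (4 * k + k * m) :=
    fun i => inv ι m k t h (rp (T i)) hm hh ht hnum (hpv i)
  choose Zf hZc hZv using hZ
  have hTi : ∀ i, T i = ∑ p ∈ Zf i, ev (4 * k + k * m) p := by
    intro i
    have h1 := (qdf ι (4 * k + k * m)).2.2.1 (rp (T i)) (Zf i) (hZv i)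
    have h2 : (Submodule.Quotient.mk (rp (T i)) : Qd ι (4 * k + k * m)) = T i := Quotient.out_eq _
    rw [← h2, h1]
  have htk : t < 2 ^ (k + 1) := by
    have h1 : t ≤ t ^ 2 := Nat.le_self_pow (by norm_num) t
    have h2 : 2 ^ h ≤ 2 ^ (k + 1) := Nat.pow_le_pow_right (by norm_num) (by omega)
    omega
  have hpe : ∀ i : Fin D, pv m k (4 * k) (rp (T i)) = r ^ (Zf i).card := by
    intro i
    have h1 : Van (ind (Zf i) + rp (T i)) (4 * k + k * m) := by
      rw [add_comm]
      exact hZv i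
    rw [(pvb ι m k (4 * k) (ind (Zf i))).2.2.1 _ h1,
      pve ι m k (4 * k) (Zf i) (by omega) ((hZc i).trans_lt htk)]
  classical
  let Z : Finset (Pt ι × Fin D) := Finset.univ.filter fun e => e.1 ∈ Zf e.2
  have hinj : ∀ i : Fin D, Set.InjOn (fun p : Pt ι => (p, i)) (Zf i : Set (Pt ι)) := by
    intro i a _ b _ hab
    exact congrArg Prod.fst hab
  have hfib : ∀ i : Fin D, (Z.filter fun e => e.2 = i) = (Zf i).image fun p => (p, i) := by
    intro i
    ext e
    rw [Finset.mem_filter, Finset.mem_filter, Finset.mem_image]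
    constructor
    · rintro ⟨⟨_, h1⟩, h2⟩
      subst h2
      exact ⟨e.1, h1, rfl⟩
    · rintro ⟨p, hp, rfl⟩
      exact ⟨⟨Finset.mem_univ _, hp⟩, rfl⟩
  have hcard : ∀ i : Fin D, (Z.filter fun e => e.2 = i).card = (Zf i).card := by
    intro i
    rw [hfib, Finset.card_image_of_injOn (hinj i)]
  refine ⟨Z, ?_, ?_⟩
  · have h1 : KT m k (4 * k) T = r ^ Z.card := by
      unfold KT
      rw [Finset.prod_congr rfl fun i _ => hpe i, Finset.prod_pow_eq_pow_sum,
        Finset.card_eq_sum_card_fiberwise (f := Prod.snd) (t := Finset.univ)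
          (fun _ _ => Finset.mem_coe.2 (Finset.mem_univ _))]
      congr 1
      exact Finset.sum_congr rfl fun i _ => (hcard i).symm
    rw [h1] at hK
    exact (pow_le_pow_iff_right_of_lt_one₀ hr0 hr1).1 hK
  · funext i
    rw [hTi i]
    change _ = ∑ e ∈ Z.filter (fun e => e.2 = i), ev (4 * k + k * m) e.1
    rw [hfib, Finset.sum_image (hinj i)]

end Pool.Agent.RHO.H9c
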